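import Mathlib
import Pool.Agent.Helper838.BSWOddB

set_option autoImplicit false

namespace Pool.Agent.Results.MP_867aae_co.FixedCodimension

/-- The Bang–Sharp–Winkler conjecture in every fixed codimension, for all large ground sets:
for every `c` there is `n₀` such that for all `n ≥ n₀` and all `t, s` with `n = t + s + c`, every
`I_t,U_s`-family of subsets of `[n]` is at most as large as some product `|G| |H|`, where `G` is an
`I_t`-family on `q` points and `H` is a `U_s`-family on the other `n - q` points. -/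
theorem result :
    ∀ c : ℕ, ∃ n₀ : ℕ, ∀ n t s : ℕ, n₀ ≤ n → t + s + c = n →
      ∀ F : Finset (Finset (Fin n)),
      (∀ A ∈ F, ∀ B ∈ F, t ≤ (A ∩ B).card ∧ (A ∪ B).card + s ≤ n) →
      ∃ q : ℕ, q ≤ n ∧
        ∃ G : Finset (Finset (Fin q)),
          (∀ A ∈ G, ∀ B ∈ G, t ≤ (A ∩ B).card) ∧
          ∃ H : Finset (Finset (Fin (n - q))),
            (∀ A ∈ H, ∀ B ∈ H, (A ∪ B).card + s ≤ n - q) ∧
            F.card ≤ G.card * H.card :=
  fun c => Pool.Agent.Helper838.BSW.mainAll c

end Pool.Agent.Results.MP_867aae_co.FixedCodimension
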